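import Pool.Agent.Helper49.NF.Goals

/-!
# NF, packet SB
-/

set_option autoImplicit false

namespace Pool.Agent.Helper90.NF

open Finset
open Pool.Agent.Helper49.NF
open Pool.Agent.Helper47.SR (Grp mv lev wt Ew W IsInv up dn StarAt HalfStarAt Goal_KKA Goal_KKB)

theorem W_eq {n : ℕ} (G : Grp n) (F : Finset (Finset (Fin n))) :
    W G F = #F + Ew G F := by
  unfold W Ew
  rw [Finset.sum_add_distrib]
  simp

theorem Ew_mono {n : ℕ} (G : Grp n) {F K : Finset (Finset (Fin n))} (h : F ⊆ K) :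
    Ew G F ≤ Ew G K := by
  unfold Ew
  exact Finset.sum_le_sum_of_subset h

theorem goal_SB (hKKA : Goal_KKA) (hKKB : Goal_KKB) : Goal_SB := by
  intro n m z G S Y hm hn hmz hzn hF hc hT
  obtain ⟨r, hr⟩ : ∃ r, n = 2 * (m + 1) + r := ⟨n - 2 * (m + 1), by omega⟩
  obtain ⟨i, hi⟩ : ∃ i, z = m + i := ⟨z - m, by omega⟩
  obtain ⟨k, hk⟩ : ∃ k, n = z + k := ⟨n - z, by omega⟩
  have k1 := hKKA n m z hm hmz Y hF.Y1 hc
  have hcardS : #S ≤ n.choose (n - m) := by
    have := Finset.card_le_card hF.S1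
    rw [Finset.card_powersetCard, Finset.card_univ, Fintype.card_fin] at this
    rwa [Nat.choose_symm (by omega)]
  have k2 := hKKB n m n (by omega) (by omega) S hF.S1 hcardS
  have e1 : z - m = i := by omega
  have e3 : n - (n - m) + 1 = m + 1 := by omega
  have e4 : n - z = k := by omega
  have e5 : n - 2 * m - 1 = r + 1 := by omega
  obtain ⟨q, hq⟩ : ∃ q, n - m = q := ⟨_, rfl⟩
  rw [e1] at k1
  rw [e3, hq] at k2
  rw [TT, hq, e4, e5] at hT
  have hq1 : q = i + k := by omega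
  have hq2 : q = (m + 1) + (r + 1) := by omega
  unfold Sat
  have eD := W_eq G (dn m Y)
  have eU := W_eq G (up m S)
  have eY := W_eq G Y
  have eS := W_eq G S
  have m1 : Ew G (dn m Y) ≤ Ew G (lev n (m + 1)) := Ew_mono G (Finset.filter_subset _ _)
  have m2 : Ew G S ≤ Ew G (lev n m) := Ew_mono G hF.S1
  obtain ⟨E1, hE1⟩ : ∃ E1, Ew G (lev n (m + 1)) = E1 := ⟨_, rfl⟩
  obtain ⟨E0, hE0⟩ : ∃ E0, Ew G (lev n m) = E0 := ⟨_, rfl⟩
  rw [hE1] at m1 hT
  rw [hE0] at m2 hT
  obtain ⟨e, he⟩ : ∃ e, W G S = W G Y + e := ⟨W G S - W G Y, by have := hF.lt; omega⟩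
  have he' : W G S - W G Y = e := by omega
  rw [he'] at hT
  have a1 : (m + 1) * W G (dn m Y) ≤ i * W G Y + (m + 1) * E1 := by
    have h := Nat.mul_le_mul_left (m + 1) m1
    have h2 : i * #Y ≤ i * W G Y := Nat.mul_le_mul_left _ (by omega)
    calc (m + 1) * W G (dn m Y) = (m + 1) * #(dn m Y) + (m + 1) * Ew G (dn m Y) := by rw [eD]; ring
      _ ≤ i * #Y + (m + 1) * E1 := Nat.add_le_add k1 h
      _ ≤ _ := by omega
  have a2 : q * W G S ≤ (m + 1) * W G (up m S) + q * E0 := by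
    have h := Nat.mul_le_mul_left q m2
    have h1 : (m + 1) * #(up m S) ≤ (m + 1) * W G (up m S) := Nat.mul_le_mul_left _ (by omega)
    calc q * W G S = q * #S + q * Ew G S := by rw [eS]; ring
      _ ≤ _ := by omega
  have : (m + 1) * (W G (dn m Y) + W G S) ≤ (m + 1) * (W G (up m S) + W G Y) := by
    have b1 : q * W G S = (i + k) * W G Y + ((m + 1) + (r + 1)) * e := by
      rw [he, Nat.mul_add]
      nth_rewrite 1 [hq1]
      rw [hq2]
    have b2 : (m + 1) * (W G (dn m Y) + W G S) =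
        (m + 1) * W G (dn m Y) + (m + 1) * W G Y + (m + 1) * e := by rw [he]; ring
    have b3 : (m + 1) * (W G (up m S) + W G Y) =
        (m + 1) * W G (up m S) + (m + 1) * W G Y := by ring
    have b4 : (i + k) * W G Y + ((m + 1) + (r + 1)) * e =
        i * W G Y + k * W G Y + (m + 1) * e + (r + 1) * e := by ring
    omega
  exact Nat.le_of_mul_le_mul_left this (by omega)

end Pool.Agent.Helper90.NF
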